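import Pool.Agent.Helper56.RZ.GoalsC

/-!
# Project RZ2 (MP_f32c9c_an), packet RT: rates of the powers
-/

set_option autoImplicit false

open Set Filter Topology MeasureTheory

namespace Pool.Agent.Helper47.RZ

open Pool.Agent.Helper56.RZ

/-- Rank one. -/
theorem rank_one {K : ℕ} (p p' A B : End K) (R : ℝ)
    (h1 : Module.finrank ℝ (LinearMap.range (p : E K →ₗ[ℝ] E K)) = 1)
    (h1' : Module.finrank ℝ (LinearMap.range (p' : E K →ₗ[ℝ] E K)) = 1)
    (hpp : p * p = p) (hA : A * p = p' * A) (hB : B * (A * p) = p) (hp : ‖p‖ ≤ R)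
    (hp' : ‖p'‖ ≤ R) : ‖A * p‖ * ‖B * p'‖ ≤ R ^ 2 := by
  obtain ⟨u, hu0, hu⟩ := finrank_eq_one_iff'.1 h1
  have hR : 0 ≤ R := (norm_nonneg p).trans hp
  have hpu : p (u : E K) = u := by
    obtain ⟨v, hv⟩ := u.2
    have hv' : p v = (u : E K) := hv
    rw [← hv', ← ContinuousLinearMap.mul_apply, hpp]
  have hu0' : (u : E K) ≠ 0 := fun h => hu0 (Subtype.ext h)
  set w : E K := A u with hw
  have hBw : B w = u := by
    rw [hw]
    conv_lhs => rw [← hpu]
    rw [← ContinuousLinearMap.mul_apply A p, ← ContinuousLinearMap.mul_apply B, hB]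
    exact hpu
  have hw0 : w ≠ 0 := by
    intro h
    rw [h, map_zero] at hBw
    exact hu0' hBw.symm
  have hwr : p' w = w := by
    rw [hw, ← ContinuousLinearMap.mul_apply, ← hA, ContinuousLinearMap.mul_apply, hpu]
  have hw' := (finrank_eq_one_iff_of_nonzero'
    (⟨w, ⟨w, hwr⟩⟩ : LinearMap.range (p' : E K →ₗ[ℝ] E K))
    (fun h => hw0 (congrArg Subtype.val h))).1 h1'
  have hun : 0 < ‖(u : E K)‖ := norm_pos_iff.2 hu0'
  have hwn : 0 < ‖w‖ := norm_pos_iff.2 hw0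
  have h2 : ‖A * p‖ ≤ R * (‖w‖ / ‖(u : E K)‖) := by
    refine ContinuousLinearMap.opNorm_le_bound _ (by positivity) fun v => ?_
    obtain ⟨c, hc⟩ := hu ⟨p v, ⟨v, rfl⟩⟩
    have hc' : c • (u : E K) = p v := congrArg Subtype.val hc
    have h3 : |c| * ‖(u : E K)‖ ≤ R * ‖v‖ := by
      rw [← Real.norm_eq_abs, ← norm_smul, hc']
      exact (p.le_opNorm v).trans (mul_le_mul_of_nonneg_right hp (norm_nonneg _))
    have h4 : ‖(A * p) v‖ = |c| * ‖w‖ := by
      rw [ContinuousLinearMap.mul_apply, ← hc', map_smul, norm_smul, Real.norm_eq_abs]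
    rw [h4]
    calc |c| * ‖w‖ = (|c| * ‖(u : E K)‖) * (‖w‖ / ‖(u : E K)‖) := by field_simp
      _ ≤ (R * ‖v‖) * (‖w‖ / ‖(u : E K)‖) := mul_le_mul_of_nonneg_right h3 (by positivity)
      _ = _ := by ring
  have h5 : ‖B * p'‖ ≤ R * (‖(u : E K)‖ / ‖w‖) := by
    refine ContinuousLinearMap.opNorm_le_bound _ (by positivity) fun v => ?_
    obtain ⟨c, hc⟩ := hw' ⟨p' v, ⟨v, rfl⟩⟩
    have hc' : c • w = p' v := congrArg Subtype.val hc
    have h3 : |c| * ‖w‖ ≤ R * ‖v‖ := by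
      rw [← Real.norm_eq_abs, ← norm_smul, hc']
      exact (p'.le_opNorm v).trans (mul_le_mul_of_nonneg_right hp' (norm_nonneg _))
    have h4 : ‖(B * p') v‖ = |c| * ‖(u : E K)‖ := by
      rw [ContinuousLinearMap.mul_apply, ← hc', map_smul, hBw, norm_smul, Real.norm_eq_abs]
    rw [h4]
    calc |c| * ‖(u : E K)‖ = (|c| * ‖w‖) * (‖(u : E K)‖ / ‖w‖) := by field_simp
      _ ≤ (R * ‖v‖) * (‖(u : E K)‖ / ‖w‖) := mul_le_mul_of_nonneg_right h3 (by positivity)
      _ = _ := by ring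
  calc ‖A * p‖ * ‖B * p'‖ ≤ (R * (‖w‖ / ‖(u : E K)‖)) * (R * (‖(u : E K)‖ / ‖w‖)) :=
        mul_le_mul h2 h5 (norm_nonneg _) (by positivity)
    _ = R ^ 2 := by field_simp

theorem one_le_norm {K : ℕ} {p : End K} (hp : p * p = p) (h0 : p ≠ 0) : 1 ≤ ‖p‖ := by
  have h1 : ‖p‖ ≤ ‖p‖ * ‖p‖ := by
    conv_lhs => rw [← hp]
    exact norm_mul_le _ _
  have h2 : 0 < ‖p‖ := norm_pos_iff.2 h0
  by_contra h
  push Not at h
  nlinarith

section

variable {X : Type} [MetricSpace X] {K : ℕ} {D : Coc X K} {P : Fin 3 → X → End K}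

theorem pp (h : Spl D P) (x : X) (i : Fin 3) : P i x * P i x = P i x := by
  rw [h.proj, if_pos rfl]

theorem Tp (h : Spl D P) (x : X) (i : Fin 3) : D.T x * P i x = P i x := by
  rw [← h.sum, add_mul, add_mul, h.proj, h.proj, h.proj]
  fin_cases i <;> simp

theorem BAp (h : Spl D P) (x : X) (i : Fin 3) :
    D.B (D.f x) * (D.A x * P i x) = P i x := by
  rw [← mul_assoc, D.BA, Tp h]

theorem prod_ge (h : Spl D P) (x : X) (i : Fin 3) :
    1 ≤ ‖D.A x * P i x‖ * ‖D.B (D.f x) * P i (D.f x)‖ := by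
  have h1 : P i x = (D.B (D.f x) * P i (D.f x)) * (D.A x * P i x) := by
    rw [mul_assoc, ← mul_assoc (P i (D.f x)), ← h.inv, mul_assoc (D.A x), pp h, BAp h]
  have h2 := one_le_norm (pp h x i) (h.ne x i)
  calc 1 ≤ ‖P i x‖ := h2
    _ = ‖(D.B (D.f x) * P i (D.f x)) * (D.A x * P i x)‖ := by rw [← h1]
    _ ≤ ‖D.B (D.f x) * P i (D.f x)‖ * ‖D.A x * P i x‖ := norm_mul_le _ _
    _ = _ := mul_comm _ _

theorem posA (h : Spl D P) (x : X) (i : Fin 3) : 0 < ‖D.A x * P i x‖ := by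
  have h1 := prod_ge h x i
  rcases (norm_nonneg (D.A x * P i x)).eq_or_lt with h2 | h2
  · rw [← h2, zero_mul] at h1
    linarith
  · exact h2

theorem posB (h : Spl D P) (x : X) (i : Fin 3) : 0 < ‖D.B (D.f x) * P i (D.f x)‖ := by
  have h1 := prod_ge h x i
  rcases (norm_nonneg (D.B (D.f x) * P i (D.f x))).eq_or_lt with h2 | h2
  · rw [← h2, mul_zero] at h1
    linarith
  · exact h2

end

theorem exists_bd {X : Type} [MetricSpace X] [CompactSpace X] {K : ℕ} {P : Fin 3 → X → End K}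
    (h : ∀ i, Continuous (P i)) : ∃ R : ℝ, 1 ≤ R ∧ ∀ i x, ‖P i x‖ ≤ R := by
  have h1 : ∀ i, ∃ C : ℝ, ∀ x, ‖P i x‖ ≤ C := by
    intro i
    obtain ⟨C, hC⟩ := isCompact_univ.exists_bound_of_continuousOn (h i).continuousOn
    exact ⟨C, fun x => hC x (mem_univ x)⟩
  choose C hC using h1
  refine ⟨1 + ∑ i, |C i|, ?_, fun i x => ?_⟩
  · have : 0 ≤ ∑ i, |C i| := Finset.sum_nonneg fun i _ => abs_nonneg _
    linarith
  · have h2 : |C i| ≤ ∑ i, |C i| :=
      Finset.single_le_sum (f := fun i => |C i|) (fun j _ => abs_nonneg _) (Finset.mem_univ i)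
    have := hC i x
    have := le_abs_self (C i)
    linarith

theorem rt : StmtDN → StmtRT := by
  intro hDN X _ _ K C P n hS hD hrk
  obtain ⟨q, Cq, hq0, hq1, hCq, hdn⟩ := hDN X K C P n hS hD
  obtain ⟨R, hR1, hR⟩ := exists_bd hS.cont
  set L : ℝ := - Real.log q with hL
  have hLp : 0 < L := by
    rw [hL]
    have := Real.log_neg hq0 hq1
    linarith
  obtain ⟨k1, hk1⟩ := exists_nat_ge (2 * Real.log Cq / L)
  have hsm : ∀ k : ℕ, k1 ≤ k → Cq * q ^ k ≤ Real.exp (-(L / 2 * k)) := by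
    intro k hk
    have h1 : 2 * Real.log Cq ≤ k * L := by
      have h2 : 2 * Real.log Cq / L ≤ k := hk1.trans (by exact_mod_cast hk)
      rwa [div_le_iff₀ hLp] at h2
    have h3 : Cq * q ^ k = Real.exp (Real.log Cq - L * k) := by
      rw [Real.exp_sub, Real.exp_log (by linarith), hL]
      rw [show -Real.log q * k = -(k * Real.log q) by ring, Real.exp_neg, div_inv_eq_mul,
        Real.exp_nat_mul, Real.exp_log hq0]
    rw [h3]
    apply Real.exp_le_exp.2
    linarith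
  refine ⟨Real.log (3 * R ^ 2), L / 2, max 1 k1, ?_, by positivity, le_max_left _ _, ?_⟩
  · apply Real.log_nonneg
    nlinarith
  intro k hk D hP hSD
  have hsm := hsm k ((le_max_right _ _).trans hk)
  have hle1 : Cq * q ^ k ≤ 1 := by
    refine hsm.trans ?_
    rw [Real.exp_le_one_iff]
    have : 0 ≤ L / 2 * k := by positivity
    linarith
  -- the estimates of DN
  have d0 : ∀ x, ‖D.A x * P 0 x‖ ≤ Cq * q ^ k := fun x => by
    rw [hP.A]
    exact (hdn k x).1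
  have d2 : ∀ x, ‖D.B x * P 2 x‖ ≤ Cq * q ^ k := fun x => by
    rw [hP.B]
    exact (hdn k x).2.1
  have dd : ∀ x, ∀ i j : Fin 3, i < j → ‖D.A x * P i x‖ *
      ‖D.B (D.f x) * P j (D.f x)‖ ≤ Cq * q ^ k := fun x i j hij => by
    rw [hP.A, hP.B, hP.f]
    exact (hdn k x).2.2 i j hij
  have r0 : ∀ x, ‖D.A x * P 0 x‖ * ‖D.B (D.f x) * P 0 (D.f x)‖ ≤ R ^ 2 := fun x =>
    rank_one _ _ _ _ R (hrk x).1 (hrk (D.f x)).1 (pp hSD x 0) (hSD.inv x 0) (BAp hSD x 0)
      (hR 0 x) (hR 0 _)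
  have r2 : ∀ x, ‖D.A x * P 2 x‖ * ‖D.B (D.f x) * P 2 (D.f x)‖ ≤ R ^ 2 := fun x =>
    rank_one _ _ _ _ R (hrk x).2 (hrk (D.f x)).2 (pp hSD x 2) (hSD.inv x 2) (BAp hSD x 2)
      (hR 2 x) (hR 2 _)
  have hR2 : 1 ≤ R ^ 2 := by nlinarith
  have hexp : Real.exp (Real.log (3 * R ^ 2)) = 3 * R ^ 2 := Real.exp_log (by positivity)
  have hcA : ∀ i, Continuous fun x => ‖D.A x * P i x‖ := fun i =>
    (D.contA.mul (hSD.cont i)).norm
  have hcB : Continuous fun x => ‖D.B (D.f x) * P 1 (D.f x)‖ :=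
    ((D.contB.comp D.f.continuous).mul ((hSD.cont 1).comp D.f.continuous)).norm
  have hAT : ∀ x, D.A x = D.A x * P 0 x + D.A x * P 1 x + D.A x * P 2 x := by
    intro x
    rw [← mul_add, ← mul_add, hSD.sum, D.AT]
  have hBT : ∀ x, D.B x = D.B x * P 0 x + D.B x * P 1 x + D.B x * P 2 x := by
    intro x
    rw [← mul_add, ← mul_add, hSD.sum, D.BT]
  have hge2 : ∀ x, 1 ≤ (Cq * q ^ k) * ‖D.A x * P 2 x‖ := by
    intro x
    have h1 := prod_ge hSD x 2
    have h2 := d2 (D.f x)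
    have h3 := mul_le_mul_of_nonneg_left h2 (norm_nonneg (D.A x * P 2 x))
    linarith
  have hiA : ∀ x i, i < 2 → ‖D.A x * P i x‖ ≤ ‖D.A x * P 2 x‖ := by
    intro x i hi
    have h1 := prod_ge hSD x 2
    have h2 := (dd x i 2 hi).trans hle1
    have h3 := posB hSD x 2
    by_contra h4
    push Not at h4
    have := mul_lt_mul_of_pos_right h4 h3
    linarith
  have hcge : ∀ x, 1 ≤ Real.exp (max 0 (max (Real.log ‖D.A x * P 1 x‖)
        (Real.log ‖D.B (D.f x) * P 1 (D.f x)‖))) := fun x =>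
    Real.one_le_exp (le_max_left _ _)
  have hcA1 : ∀ x, ‖D.A x * P 1 x‖ ≤ Real.exp (max 0 (max (Real.log ‖D.A x * P 1 x‖)
        (Real.log ‖D.B (D.f x) * P 1 (D.f x)‖))) := by
    intro x
    conv_lhs => rw [← Real.exp_log (posA hSD x 1)]
    exact Real.exp_le_exp.2 ((le_max_left _ _).trans (le_max_right _ _))
  have hcB1 : ∀ x, ‖D.B (D.f x) * P 1 (D.f x)‖ ≤
      Real.exp (max 0 (max (Real.log ‖D.A x * P 1 x‖)
        (Real.log ‖D.B (D.f x) * P 1 (D.f x)‖))) := by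
    intro x
    conv_lhs => rw [← Real.exp_log (posB hSD x 1)]
    exact Real.exp_le_exp.2 ((le_max_right _ _).trans (le_max_right _ _))
  refine ⟨⟨?_, ?_, ?_, ?_, ?_, ?_, ?_, ?_, ?_, ?_⟩, ?_⟩
  · exact (hcA 2).log fun x => (posA hSD x 2).ne'
  · exact ((hcA 0).log fun x => (posA hSD x 0).ne').neg
  · exact continuous_const.max (((hcA 1).log fun x => (posA hSD x 1).ne').max
      (hcB.log fun x => (posB hSD x 1).ne'))
  · intro x
    exact le_max_left _ _
  · intro x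
    rw [Real.exp_add, Real.exp_log (posA hSD x 2), hexp]
    have h0 := hiA x 0 (by decide)
    have h1 := hiA x 1 (by decide)
    have h2 := posA hSD x 2
    have h3 : ‖D.A x‖ ≤ ‖D.A x * P 0 x‖ + ‖D.A x * P 1 x‖ + ‖D.A x * P 2 x‖ := by
      conv_lhs => rw [hAT x]
      exact norm_add₃_le
    have h4 : ‖D.A x * P 2 x‖ * 1 ≤ ‖D.A x * P 2 x‖ * R ^ 2 :=
      mul_le_mul_of_nonneg_left hR2 h2.le
    linarith
  · intro x
    have hp := posA hSD x 0
    rw [Real.exp_add, Real.exp_neg, Real.exp_log hp, hexp, inv_mul_eq_div, le_div_iff₀ hp]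
    have h3 : ‖D.B (D.f x)‖ ≤ ‖D.B (D.f x) * P 0 (D.f x)‖ + ‖D.B (D.f x) * P 1 (D.f x)‖ +
        ‖D.B (D.f x) * P 2 (D.f x)‖ := by
      conv_lhs => rw [hBT (D.f x)]
      exact norm_add₃_le
    have h0 := r0 x
    have h1 := (dd x 0 1 (by decide)).trans hle1
    have h2 := (dd x 0 2 (by decide)).trans hle1
    have h4 := mul_le_mul_of_nonneg_right h3 hp.le
    linarith
  · intro x
    rw [neg_neg, Real.exp_add, Real.exp_log (posA hSD x 0), hexp]
    have h2 := posA hSD x 0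
    nlinarith
  · intro x
    have hp := posA hSD x 2
    rw [Real.exp_add, Real.exp_neg, Real.exp_log hp, hexp, inv_mul_eq_div, le_div_iff₀ hp]
    have := r2 x
    linarith
  · intro x
    rw [Real.exp_add, hexp, mul_add]
    have h1 := hcge x
    have h2 := hcA1 x
    have h3 := (d0 x).trans hle1
    have h4 := norm_add_le (D.A x * P 0 x) (D.A x * P 1 x)
    nlinarith
  · intro x
    rw [Real.exp_add, hexp, mul_add]
    have h1 := hcge x
    have h2 := hcB1 x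
    have h3 := (d2 (D.f x)).trans hle1
    have h4 := norm_add_le (D.B (D.f x) * P 1 (D.f x)) (D.B (D.f x) * P 2 (D.f x))
    nlinarith
  · intro x
    constructor
    · rw [Real.le_log_iff_exp_le (posA hSD x 2)]
      have h1 := hge2 x
      have h2 := mul_le_mul_of_nonneg_right hsm (norm_nonneg (D.A x * P 2 x))
      have h3 : 1 ≤ Real.exp (-(L / 2 * k)) * ‖D.A x * P 2 x‖ := h1.trans h2
      rw [Real.exp_neg, inv_mul_eq_div, le_div_iff₀ (Real.exp_pos _), one_mul] at h3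
      exact h3
    · rw [le_neg, Real.log_le_iff_le_exp (posA hSD x 0)]
      exact (d0 x).trans hsm

end Pool.Agent.Helper47.RZ
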